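import Pool.Agent.X19.LPB.Vanish

/-!
# No smooth blid maps on `ℓ_p`
-/

set_option autoImplicit false

open Set Filter Topology
open scoped ENNReal

namespace Pool.Agent.X19.LPB

variable {p : ℝ≥0∞} [hp1 : Fact (1 ≤ p)]

theorem rpow_sub_le (r : ℝ) (hr : 1 ≤ r) (B a b δ : ℝ) (ha : 0 ≤ a) (hb : 0 ≤ b) (hbB : b ≤ B)
    (hδ : 0 ≤ δ) (hab : b - a ≤ δ) : b ^ r - a ^ r ≤ r * B ^ (r - 1) * δ := by
  have hB : 0 ≤ B := hb.trans hbB
  have hnn : 0 ≤ r * B ^ (r - 1) * δ := by positivity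
  rcases le_total b a with h | h
  · have := Real.rpow_le_rpow hb h (by linarith : 0 ≤ r)
    linarith
  · rcases hb.eq_or_lt with h0 | h0
    · have : a = 0 := le_antisymm (by rw [h0]; exact h) ha
      rw [← h0, this, sub_self]
      exact hnn
    · have h1 := one_add_mul_self_le_rpow_one_add (s := (a - b) / b) (by
        rw [le_div_iff₀ h0]
        linarith) hr
      have h2 : 1 + (a - b) / b = a / b := by
        field_simp
        ring
      rw [h2, Real.div_rpow ha hb] at h1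
      have hbr : 0 < b ^ r := Real.rpow_pos_of_pos h0 _
      rw [le_div_iff₀ hbr] at h1
      have h3 : b ^ r = b ^ (r - 1) * b := by
        rw [Real.rpow_sub_one h0.ne']
        field_simp
      have h4 : (1 + r * ((a - b) / b)) * b ^ r = b ^ r - r * b ^ (r - 1) * (b - a) := by
        rw [h3]
        field_simp
        ring
      rw [h4] at h1
      have h5 : r * b ^ (r - 1) * (b - a) ≤ r * B ^ (r - 1) * δ := by
        have h6 : b ^ (r - 1) ≤ B ^ (r - 1) := Real.rpow_le_rpow hb hbB (by linarith)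
        have h7 : 0 ≤ b ^ (r - 1) := by positivity
        apply mul_le_mul (mul_le_mul_of_nonneg_left h6 (by linarith)) hab (by linarith)
        positivity
      linarith

theorem local_bound {E G : Type} [NormedAddCommGroup E] [NormedAddCommGroup G] (f : E → G)
    (hf : Continuous f) (z : E) : ∃ ρ > 0, ∃ M > 0, ∀ y, ‖y - z‖ < ρ → ‖f y‖ ≤ M := by
  obtain ⟨ρ, hρ, h⟩ := Metric.continuousAt_iff.1 (hf.continuousAt (x := z)) 1 one_pos
  refine ⟨ρ, hρ, ‖f z‖ + 1, by positivity, fun y hy => ?_⟩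
  have h1 := h (x := y) (by rwa [dist_eq_norm])
  rw [dist_eq_norm] at h1
  have := norm_sub_norm_le (f y) (f z)
  linarith

theorem norm_pair (t : ℝ) (ht : 0 < t) (z : ell p) (n m : ℕ) :
    ‖z + t • e n + t • (-1 : ℝ) • e m - z‖ ≤ 2 * t := by
  have h1 : z + t • e n + t • (-1 : ℝ) • e m - z = t • (e n : ell p) + t • (-1 : ℝ) • e m := by
    abel
  rw [h1]
  refine (norm_add_le _ _).trans ?_
  rw [norm_smul, norm_smul, norm_smul, norm_e, norm_e, Real.norm_eq_abs, abs_of_pos ht,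
    Real.norm_eq_abs]
  norm_num
  linarith

/-- The new coordinate. -/
theorem new_coord (hp : p ≠ ⊤) {H : ell p → ell p} (hH : ContDiff ℝ 2 H) (z : ell p) (g : ℝ)
    (hg : Tendsto (fun n => (fderiv ℝ H z (e n)) n) U (𝓝 g)) (M ρ : ℝ)
    (hMb : ∀ y, ‖y - z‖ < ρ → ‖iteratedFDeriv ℝ 2 H y‖ ≤ M) (t : ℝ) (ht : 0 < t)
    (htρ : 2 * t < ρ) (η : ℝ) (hη : 0 < η) (n : ℕ) :
    ∀ᶠ m in U, t * |g| - M * (2 * t) ^ 2 - η ≤ |(H (z + t • e n + t • (-1 : ℝ) • e m)) m| := by
  -- the Taylor expansion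
  have hT : ∀ m, |(H (z + t • e n + t • (-1 : ℝ) • e m)) m - ((H z) m +
      t * ((fderiv ℝ H z (e n)) m - (fderiv ℝ H z (e m)) m))| ≤ M * (2 * t) ^ 2 := by
    intro m
    let ev : ell p →L[ℝ] ℝ := lp.evalCLM ℝ (fun _ : ℕ => ℝ) p m
    have hev : ∀ w : ell p, ev w = w m := fun w => rfl
    have hevn : ‖ev‖ ≤ 1 := by
      refine ContinuousLinearMap.opNorm_le_bound _ zero_le_one fun w => ?_
      rw [one_mul]
      exact lp.norm_apply_le_norm (lt_of_lt_of_le zero_lt_one hp1.out).ne' w m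
    let v : ell p := (1 / 2 : ℝ) • (e n - e m)
    have hv : ‖v‖ ≤ 1 := by
      have := norm_sub_le (e n : ell p) (e m)
      rw [norm_e, norm_e] at this
      rw [norm_smul, Real.norm_eq_abs, abs_of_pos (by norm_num : (0 : ℝ) < 1 / 2)]
      linarith
    have hφ : ContDiff ℝ (1 + 1 : ℕ) (fun y => ev (H y)) := ev.contDiff.comp hH
    have h1 := taylor_line (n := 1) hφ z v hv (2 * t) M (by linarith) (by
      intro s hs
      have h2 : ‖iteratedFDeriv ℝ (1 + 1) (ev ∘ H) (z + s • v)‖ ≤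
          ‖ev‖ * ‖iteratedFDeriv ℝ (1 + 1) H (z + s • v)‖ :=
        ev.norm_iteratedFDeriv_comp_left hH.contDiffAt le_rfl
      have h3 : ‖iteratedFDeriv ℝ (1 + 1) H (z + s • v)‖ ≤ M := hMb _ (by
        rw [add_sub_cancel_left, norm_smul, Real.norm_eq_abs, abs_of_nonneg hs.1]
        have : s * ‖v‖ ≤ 2 * t * 1 := mul_le_mul hs.2 hv (norm_nonneg _) (by linarith)
        linarith)
      calc ‖iteratedFDeriv ℝ (1 + 1) (fun y => ev (H y)) (z + s • v)‖
          ≤ ‖ev‖ * ‖iteratedFDeriv ℝ (1 + 1) H (z + s • v)‖ := h2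
        _ ≤ 1 * M := mul_le_mul hevn h3 (norm_nonneg _) zero_le_one
        _ = M := one_mul _)
    have hpt : z + (2 * t) • v = z + t • e n + t • (-1 : ℝ) • e m := by
      simp only [v]
      module
    have hd1 : dd 1 (fun y => ev (H y)) z v = (fderiv ℝ H z v) m := by
      have hHd : DifferentiableAt ℝ H z := hH.differentiable (by norm_num) z
      rw [dd, iteratedFDeriv_one_apply]
      have : fderiv ℝ (fun y => ev (H y)) z = ev.comp (fderiv ℝ H z) :=
        (ev.hasFDerivAt.comp z hHd.hasFDerivAt).fderiv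
      rw [this]
      rfl
    have hd0 : dd 0 (fun y => ev (H y)) z v = (H z) m := by
      simp [dd, hev]
    rw [Finset.sum_range_succ, Finset.sum_range_one, hd0, hd1, hpt] at h1
    have hlin : (fderiv ℝ H z v) m
        = 1 / 2 * ((fderiv ℝ H z (e n)) m - (fderiv ℝ H z (e m)) m) := by
      simp only [v]
      rw [map_smul, map_sub]
      rfl
    rw [hlin] at h1
    have h5 : (2 * t) ^ 0 / (Nat.factorial 0 : ℝ) * (H z) m + (2 * t) ^ 1 / (Nat.factorial 1 : ℝ)
        * (1 / 2 * ((fderiv ℝ H z (e n)) m - (fderiv ℝ H z (e m)) m))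
        = (H z) m + t * ((fderiv ℝ H z (e n)) m - (fderiv ℝ H z (e m)) m) := by
      simp
      ring
    rw [h5] at h1
    exact h1
  have hlim : Tendsto (fun m => (H z) m + t * ((fderiv ℝ H z (e n)) m - (fderiv ℝ H z (e m)) m))
      U (𝓝 (0 + t * (0 - g))) :=
    ((coord_tendsto hp (H z)).mono_left U_le).add
      ((((coord_tendsto hp (fderiv ℝ H z (e n))).mono_left U_le).sub hg).const_mul t)
  have habs := hlim.abs
  have habs' : |0 + t * (0 - g)| = t * |g| := by
    rw [zero_add, zero_sub, abs_mul, abs_neg, abs_of_pos ht]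
  rw [habs'] at habs
  filter_upwards [(Metric.tendsto_nhds.1 habs) η hη] with m hm
  rw [Real.dist_eq, abs_lt] at hm
  have h1 := abs_sub_abs_le_abs_sub ((H z) m + t * ((fderiv ℝ H z (e n)) m - (fderiv ℝ H z (e m)) m))
    ((H (z + t • e n + t • (-1 : ℝ) • e m)) m)
  rw [abs_sub_comm] at h1
  linarith [hT m, hm.1]

/-- **Main theorem.** If `p` is not an even integer, then no bounded map of class `C^(⌊p⌋ + 2)` of
`ℓ_p` to itself is the identity near `0`. -/
theorem no_blid (hp : p ≠ ⊤) (hpe : ∀ n : ℕ, p.toReal ≠ 2 * n) (k : ℕ) (hk : k = ⌊p.toReal⌋₊)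
    (H : ell p → ell p) (hH : ContDiff ℝ (k + 2 : ℕ) H) (B : ℝ) (hB : ∀ x, ‖H x‖ ≤ B)
    (hid : ∀ᶠ x in 𝓝 (0 : ell p), H x = x) : False := by
  have hr := one_le_toReal hp
  set r : ℝ := p.toReal with hrdef
  have hk1 : 1 ≤ k := by
    rw [hk]
    exact Nat.le_floor (by simpa using hr)
  have hrk : r < k + 1 := by
    rw [hk]
    exact Nat.lt_floor_add_one r
  have hB0 : 0 ≤ B := (norm_nonneg _).trans (hB 0)
  obtain ⟨lam, hlam⟩ := exists_lam p
  set g : ell p → ℝ := fun x => lam (fderiv ℝ H x) with hg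
  have hgC : ContDiff ℝ (k + 1 : ℕ) g := by
    have : ContDiff ℝ (k + 1 : ℕ) (fderiv ℝ H) := hH.fderiv_right (by exact_mod_cast le_rfl)
    exact lam.contDiff.comp this
  have hH1 : ContDiff ℝ (k + 1 : ℕ) H := hH.of_le (by exact_mod_cast Nat.le_succ _)
  have hH2 : ContDiff ℝ 2 H := hH.of_le (by exact_mod_cast (by omega : 2 ≤ k + 2))
  have hH0 : H 0 = 0 := hid.self_of_nhds
  have hg0 : g 0 = 1 := by
    have h1 : fderiv ℝ H 0 = ContinuousLinearMap.id ℝ (ell p) := by
      have : H =ᶠ[𝓝 0] id := hid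
      rw [this.fderiv_eq]
      exact fderiv_id
    have h2 := hlam (fderiv ℝ H 0)
    have h3 : ∀ n, (fderiv ℝ H 0 (e n)) n = 1 := by
      intro n
      rw [h1]
      change (Pi.single n (1 : ℝ) : ℕ → ℝ) n = 1
      rw [Pi.single_eq_same]
    simp_rw [h3] at h2
    exact tendsto_nhds_unique h2 tendsto_const_nhds |>.symm ▸ rfl
  -- the constants
  set K : ℝ := 2 * B ^ r + 1 with hK
  have hBr : 0 ≤ B ^ r := by positivity
  have hKpos : 0 < K := by positivity
  set ε : ℝ := (1 / 4 : ℝ) ^ r / 8 with hε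
  have hε0 : 0 < ε := by positivity
  set F : ell p → ℝ := fun y => ‖H y‖ ^ r + K * min |g y| 1 with hF
  have hFcont : Continuous F := by
    refine (hH.continuous.norm.rpow_const fun _ => Or.inr (by linarith)).add ?_
    exact continuous_const.mul (hgC.continuous.abs.min continuous_const)
  obtain ⟨x, R, z, hxR, hz0, hzmin⟩ := variational r (by linarith) (fun y => -F y) hFcont.neg
    (-(B ^ r + K)) (fun y => by
      have h1 : ‖H y‖ ^ r ≤ B ^ r := Real.rpow_le_rpow (norm_nonneg _) (hB y) (by linarith)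
      have h2 : K * min |g y| 1 ≤ K * 1 := mul_le_mul_of_nonneg_left (min_le_right _ _) hKpos.le
      simp only [hF]
      linarith) 0 ε hε0
  -- the value of `g` at `z`
  have hgz : 1 / 2 ≤ |g z| := by
    have h1 : ‖H z‖ ^ r ≤ B ^ r := Real.rpow_le_rpow (norm_nonneg _) (hB z) (by linarith)
    have h2 : F 0 = K := by
      simp only [hF]
      rw [hH0, norm_zero, Real.zero_rpow (by linarith), hg0]
      simp
    have h3 : F 0 ≤ F z := by linarith
    rw [h2] at h3
    by_contra hcon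
    push Not at hcon
    have h4 : K * min |g z| 1 ≤ K * (1 / 2) :=
      mul_le_mul_of_nonneg_left ((min_le_left _ _).trans hcon.le) hKpos.le
    simp only [hF] at h3
    linarith
  -- local bounds
  obtain ⟨ρ1, hρ1, M1, hM1, hb1⟩ := local_bound (iteratedFDeriv ℝ (k + 1) H)
    (hH1.continuous_iteratedFDeriv le_rfl) z
  obtain ⟨ρ2, hρ2, M2, hM2, hb2⟩ := local_bound (iteratedFDeriv ℝ (k + 1) g)
    (hgC.continuous_iteratedFDeriv le_rfl) z
  obtain ⟨ρ3, hρ3, M3, hM3, hb3⟩ := local_bound (iteratedFDeriv ℝ 2 H)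
    (hH2.continuous_iteratedFDeriv le_rfl) z
  set L : ℝ := r * B ^ (r - 1) with hL
  have hL0 : 0 ≤ L := by positivity
  set C : ℝ := 3 * (L * M1 + K * M2) + (3 + L + K) with hC
  have hC0 : 0 < C := by positivity
  -- the final inequality for all small `t`
  have hfinal : ∀ t : ℝ, 0 < t → 3 * t < ρ1 → 3 * t < ρ2 → 3 * t < ρ3 → 32 * M3 * t ≤ 1 →
      (t / 4) ^ r ≤ 2 * ε * t ^ r + C * t ^ (k + 1) := by
    intro t ht ht1 ht2 ht3 ht4
    set η : ℝ := min (t / 8) (t ^ (k + 1)) with hη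
    have hη0 : 0 < η := lt_min (by positivity) (by positivity)
    have hη1 : η ≤ t / 8 := min_le_left _ _
    have hη2 : η ≤ t ^ (k + 1) := min_le_right _ _
    -- the truncation
    obtain ⟨N, hN⟩ : ∃ N, ‖H z‖ ^ r - η ≤ ‖P N (H z)‖ ^ r := by
      have := (norm_P_tendsto hp (H z)).eventually_const_lt
        (show ‖H z‖ ^ r - η < ‖H z‖ ^ r by linarith)
      obtain ⟨N, hN⟩ := this.exists
      exact ⟨N, hN.le⟩
    obtain ⟨yf, hyf1, hyf2⟩ := exists_dual_vector'' ℝ (P N (H z))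
    set ψ : ell p →L[ℝ] ℝ := yf.comp (P N) with hψ
    have hψn : ‖ψ‖ ≤ 1 := by
      refine ContinuousLinearMap.opNorm_le_bound _ zero_le_one fun w => ?_
      rw [one_mul, hψ, ContinuousLinearMap.comp_apply]
      refine (yf.le_opNorm _).trans ?_
      calc ‖yf‖ * ‖P N w‖ ≤ 1 * ‖w‖ :=
            mul_le_mul hyf1 (norm_P_le hp N w) (norm_nonneg _) zero_le_one
        _ = ‖w‖ := one_mul _
    have hφC : ContDiff ℝ (k + 1 : ℕ) (fun y => ψ (H y)) := ψ.contDiff.comp hH1
    have hφb : ∀ y, ‖y - z‖ ≤ 2 * t → ‖iteratedFDeriv ℝ (k + 1) (fun y => ψ (H y)) y‖ ≤ M1 := by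
      intro y hy
      have h2 : ‖iteratedFDeriv ℝ (k + 1) (ψ ∘ H) y‖ ≤ ‖ψ‖ * ‖iteratedFDeriv ℝ (k + 1) H y‖ :=
        ψ.norm_iteratedFDeriv_comp_left hH1.contDiffAt le_rfl
      calc ‖iteratedFDeriv ℝ (k + 1) (fun y => ψ (H y)) y‖
          ≤ ‖ψ‖ * ‖iteratedFDeriv ℝ (k + 1) H y‖ := h2
        _ ≤ 1 * M1 := mul_le_mul hψn (hb1 y (by linarith)) (norm_nonneg _) zero_le_one
        _ = M1 := one_mul _
    have hA := increment hp hpe k hk hφC z t M1 ht hφb η hη0
    have hG := increment hp hpe k hk hgC z t M2 ht (fun y hy => hb2 y (by linarith)) η hη0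
    have hp1' : ∀ᶠ n in U, pert r ε x (z + t • e n) ≤ pert r ε x z + ε * t ^ r + η := by
      have h := (pert_tendsto hp ε hε0 x R hxR z t).mono_left U_le
      rw [abs_of_pos ht] at h
      have := h.eventually_lt_const
        (show pert r ε x z + ε * t ^ r < pert r ε x z + ε * t ^ r + η by linarith)
      exact this.mono fun n hn => hn.le
    obtain ⟨n, hnA, hnG, hnP⟩ := (hA.and (hG.and hp1')).exists
    have hp2' : ∀ᶠ m in U, pert r ε x (z + t • e n + t • (-1 : ℝ) • e m)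
        ≤ pert r ε x (z + t • e n) + ε * t ^ r + η := by
      have h := (pert_tendsto hp ε hε0 x R hxR (z + t • e n) (t * (-1))).mono_left U_le
      rw [abs_mul, abs_of_pos ht, abs_neg, abs_one, mul_one] at h
      have := h.eventually_lt_const
        (show pert r ε x (z + t • e n) + ε * t ^ r <
          pert r ε x (z + t • e n) + ε * t ^ r + η by linarith)
      refine this.mono fun m hm => ?_
      rw [smul_smul]
      exact hm.le
    have hnew := new_coord hp hH2 z (g z) (hlam (fderiv ℝ H z)) M3 ρ3 hb3 t ht (by linarith) η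
      hη0 n
    have hge : ∀ᶠ m in U, N ≤ m := by
      apply U_le
      rw [Nat.cofinite_eq_atTop]
      exact eventually_ge_atTop N
    obtain ⟨m, hmA, hmG, hmP, hmN, hmge⟩ :=
      (hnA.and (hnG.and (hp2'.and (hnew.and hge)))).exists
    set y : ell p := z + t • e n + t • (-1 : ℝ) • e m with hy
    -- the coordinate
    have hcoord : t / 4 ≤ |(H y) m| := by
      have h1 : t * (1 / 2) ≤ t * |g z| := mul_le_mul_of_nonneg_left hgz ht.le
      have h2 : M3 * (2 * t) ^ 2 ≤ t / 8 := by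
        have : M3 * (2 * t) ^ 2 = (32 * M3 * t) * (t / 8) := by ring
        rw [this]
        exact mul_le_of_le_one_left (by positivity) ht4
      linarith
    have hcoord' : (t / 4) ^ r ≤ |(H y) m| ^ r :=
      Real.rpow_le_rpow (by positivity) hcoord (by linarith)
    have hPadd := norm_P_add_le hp N m hmge (H y)
    -- the truncated norm
    have hPy : ‖P N (H z)‖ ^ r - ‖P N (H y)‖ ^ r ≤ L * (3 * M1 * t ^ (k + 1) + η) := by
      refine rpow_sub_le r hr B _ _ _ (norm_nonneg _) (norm_nonneg _)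
        ((norm_P_le hp N _).trans (hB z)) (by positivity) ?_
      have h1 : ψ (H z) = ‖P N (H z)‖ := hyf2
      have h2 : ψ (H y) ≤ ‖P N (H y)‖ := by
        have h3 : ψ (H y) ≤ |yf (P N (H y))| := le_abs_self _
        have h4 : |yf (P N (H y))| ≤ ‖yf‖ * ‖P N (H y)‖ := yf.le_opNorm _
        have h5 : ‖yf‖ * ‖P N (H y)‖ ≤ 1 * ‖P N (H y)‖ :=
          mul_le_mul_of_nonneg_right hyf1 (norm_nonneg _)
        linarith
      have h6 := (abs_le.1 hmA).1
      linarith
    -- the function `g`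
    have hgy : min |g z| 1 - (3 * M2 * t ^ (k + 1) + η) ≤ min |g y| 1 := by
      have h1 : |g z| - |g y| ≤ 3 * M2 * t ^ (k + 1) + η := by
        have := abs_sub_abs_le_abs_sub (g z) (g y)
        rw [abs_sub_comm] at this
        linarith
      have h0 : 0 ≤ 3 * M2 * t ^ (k + 1) + η := by positivity
      refine le_min ?_ ?_
      · have := min_le_left |g z| 1
        linarith
      · have := min_le_right |g z| 1
        linarith
    have hgy' : K * (min |g z| 1 - (3 * M2 * t ^ (k + 1) + η)) ≤ K * min |g y| 1 :=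
      mul_le_mul_of_nonneg_left hgy hKpos.le
    have hvar := hzmin y
    simp only [hF] at hvar
    have hηC : (3 + L + K) * η ≤ (3 + L + K) * t ^ (k + 1) :=
      mul_le_mul_of_nonneg_left hη2 (by positivity)
    have e1 : L * (3 * M1 * t ^ (k + 1) + η) = 3 * (L * M1) * t ^ (k + 1) + L * η := by ring
    have e2 : K * (min |g z| 1 - (3 * M2 * t ^ (k + 1) + η)) = K * min |g z| 1
      - 3 * (K * M2) * t ^ (k + 1) - K * η := by ring
    have e3 : C * t ^ (k + 1) = 3 * (L * M1) * t ^ (k + 1) + 3 * (K * M2) * t ^ (k + 1)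
      + (3 + L + K) * t ^ (k + 1) := by
      rw [hC]
      ring
    have e4 : (3 + L + K) * η = 3 * η + L * η + K * η := by ring
    rw [e1] at hPy
    rw [e2] at hgy'
    rw [e3]
    linarith
  -- choice of `t`
  have f1 : ∀ᶠ t : ℝ in 𝓝[>] 0, t < ρ1 / 3 := nhdsWithin_le_nhds (gt_mem_nhds (by positivity))
  have f2 : ∀ᶠ t : ℝ in 𝓝[>] 0, t < ρ2 / 3 := nhdsWithin_le_nhds (gt_mem_nhds (by positivity))
  have f3 : ∀ᶠ t : ℝ in 𝓝[>] 0, t < ρ3 / 3 := nhdsWithin_le_nhds (gt_mem_nhds (by positivity))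
  have f4 : ∀ᶠ t : ℝ in 𝓝[>] 0, t < 1 / (32 * M3) :=
    nhdsWithin_le_nhds (gt_mem_nhds (by positivity))
  have f5 : ∀ᶠ t : ℝ in 𝓝[>] 0, t ^ ((k : ℝ) + 1 - r) < (1 / 4 : ℝ) ^ r / 4 / C := by
    have h1 : ContinuousAt (fun t : ℝ => t ^ ((k : ℝ) + 1 - r)) 0 :=
      Real.continuousAt_rpow_const _ _ (Or.inr (by linarith))
    have h2 : Tendsto (fun t : ℝ => t ^ ((k : ℝ) + 1 - r)) (𝓝[>] 0) (𝓝 0) := by
      have := h1.tendsto.mono_left (nhdsWithin_le_nhds (s := Ioi (0 : ℝ)))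
      rwa [Real.zero_rpow (by linarith)] at this
    exact h2.eventually_lt_const (by positivity)
  have f6 : ∀ᶠ t : ℝ in 𝓝[>] 0, 0 < t := self_mem_nhdsWithin
  obtain ⟨t, h1, h2, h3, h4, h5, h6⟩ := (f1.and (f2.and (f3.and (f4.and (f5.and f6))))).exists
  have hfin := hfinal t h6 (by linarith) (by linarith) (by linarith) (by
    rw [lt_div_iff₀ (by positivity)] at h4
    linarith)
  have htr : 0 < t ^ r := Real.rpow_pos_of_pos h6 _
  have e1 : (t / 4) ^ r = t ^ r * (1 / 4 : ℝ) ^ r := by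
    rw [← Real.mul_rpow h6.le (by norm_num)]
    congr 1
    ring
  have e2 : t ^ (k + 1) = t ^ r * t ^ ((k : ℝ) + 1 - r) := by
    rw [← Real.rpow_add h6, ← Real.rpow_natCast]
    congr 1
    push_cast
    ring
  rw [e1, e2] at hfin
  have h7 : C * t ^ ((k : ℝ) + 1 - r) < (1 / 4 : ℝ) ^ r / 4 := by
    rw [lt_div_iff₀ hC0] at h5
    linarith
  have h8 : t ^ r * (1 / 4 : ℝ) ^ r ≤ t ^ r * (2 * ε + C * t ^ ((k : ℝ) + 1 - r)) := by
    linarith
  have h9 := le_of_mul_le_mul_left h8 htr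
  have h10 : 0 < (1 / 4 : ℝ) ^ r := by positivity
  rw [hε] at h9
  linarith

end Pool.Agent.X19.LPB
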