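import Pool.Agent.X19.LPB.Taylor

/-!
# The sequence spaces `ℓ_p`
-/

set_option autoImplicit false

open Set Filter Topology
open scoped ENNReal

namespace Pool.Agent.X19.LPB

/-- The real Banach space `ℓ_p`. -/
abbrev ell (p : ℝ≥0∞) : Type := lp (fun _ : ℕ => ℝ) p

variable {p : ℝ≥0∞} [hp1 : Fact (1 ≤ p)]

/-- The unit vectors. -/
noncomputable def e (n : ℕ) : ell p := lp.single p n (1 : ℝ)

theorem norm_e (n : ℕ) : ‖(e n : ell p)‖ = 1 := by
  rw [e, lp.norm_single (lt_of_lt_of_le zero_lt_one hp1.out)]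
  exact norm_one

theorem one_le_toReal (hp : p ≠ ⊤) : 1 ≤ p.toReal := by
  have := (ENNReal.toReal_le_toReal ENNReal.one_ne_top hp).2 hp1.out
  simpa using this

omit hp1 in
theorem smul_e_apply_self (s : ℝ) (n : ℕ) : (s • (e n : ell p)) n = s := by
  change s * (Pi.single n (1 : ℝ) : ℕ → ℝ) n = s
  rw [Pi.single_eq_same, mul_one]

omit hp1 in
theorem smul_e_eq (s : ℝ) (n : ℕ) : s • (e n : ell p) = lp.single p n s := by
  rw [e, ← lp.single_smul, smul_eq_mul, mul_one]

theorem rpow_tendsto (hp : p ≠ ⊤) (w : ell p) :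
    Tendsto (fun m => |w m| ^ p.toReal) cofinite (𝓝 0) := by
  have hr := one_le_toReal hp
  have := (lp.hasSum_norm (by linarith : 0 < p.toReal) w).summable.tendsto_cofinite_zero
  exact this

theorem coord_tendsto (hp : p ≠ ⊤) (w : ell p) : Tendsto (fun m => w m) cofinite (𝓝 0) := by
  have hr := one_le_toReal hp
  have h1 := (rpow_tendsto hp w).rpow_const (p := p.toReal⁻¹)
    (Or.inr (inv_nonneg.2 (by linarith)))
  rw [Real.zero_rpow (inv_ne_zero (by linarith))] at h1
  rw [tendsto_zero_iff_norm_tendsto_zero]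
  refine h1.congr fun m => ?_
  rw [Real.rpow_rpow_inv (abs_nonneg _) (by linarith)]
  rfl

theorem norm_add_single_eq (hp : p ≠ ⊤) (w : ell p) (s : ℝ) (m : ℕ) :
    ‖w + s • (e m : ell p)‖ ^ p.toReal =
      |w m + s| ^ p.toReal + (‖w‖ ^ p.toReal - |w m| ^ p.toReal) := by
  have hr := one_le_toReal hp
  have h1 := lp.norm_compl_sum_single (by linarith : 0 < p.toReal) (w + s • (e m : ell p)) {m}
  have h2 := lp.norm_compl_sum_single (by linarith : 0 < p.toReal) w {m}
  rw [Finset.sum_singleton, Finset.sum_singleton] at h1 h2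
  have h3 : (w + s • (e m : ell p)) m = w m + s := by
    rw [lp.coeFn_add, Pi.add_apply, smul_e_apply_self]
  rw [h3, lp.single_add, smul_e_eq, add_sub_add_right_eq_sub, h2, ← smul_e_eq] at h1
  rw [Real.norm_eq_abs, Real.norm_eq_abs] at h1
  linarith

theorem norm_add_single_tendsto (hp : p ≠ ⊤) (w : ell p) (s : ℝ) :
    Tendsto (fun m => ‖w + s • (e m : ell p)‖ ^ p.toReal) cofinite
      (𝓝 (‖w‖ ^ p.toReal + |s| ^ p.toReal)) := by
  have hr := one_le_toReal hp
  have h1 : Tendsto (fun m => |w m + s| ^ p.toReal) cofinite (𝓝 (|0 + s| ^ p.toReal)) :=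
    ((coord_tendsto hp w).add_const s).abs.rpow_const (Or.inr (by linarith))
  have h2 := h1.add ((tendsto_const_nhds (x := ‖w‖ ^ p.toReal)).sub (rpow_tendsto hp w))
  rw [zero_add, sub_zero, add_comm] at h2
  exact h2.congr fun m => (norm_add_single_eq hp w s m).symm

theorem pert_tendsto (hp : p ≠ ⊤) (ε : ℝ) (hε : 0 < ε) (x : ℕ → ell p) (R : ℝ)
    (hR : ∀ k, ‖x k‖ ≤ R) (w : ell p) (s : ℝ) :
    Tendsto (fun m => pert p.toReal ε x (w + s • (e m : ell p))) cofinite
      (𝓝 (pert p.toReal ε x w + ε * |s| ^ p.toReal)) := by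
  have hr := one_le_toReal hp
  have hgeo : Summable fun k : ℕ => ε * (1 / 2 : ℝ) ^ (k + 1) :=
    Summable.mul_left _ ((summable_nat_add_iff 1).2
      (summable_geometric_of_lt_one (by norm_num) (by norm_num)))
  have hgeo1 : ∑' k : ℕ, ε * (1 / 2 : ℝ) ^ (k + 1) = ε := by
    rw [tsum_mul_left]
    have : ∑' k : ℕ, (1 / 2 : ℝ) ^ (k + 1) = 1 := by
      simp_rw [pow_succ']
      rw [tsum_mul_left, tsum_geometric_of_lt_one (by norm_num) (by norm_num)]
      norm_num
    rw [this, mul_one]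
  have hlim : pert p.toReal ε x w + ε * |s| ^ p.toReal
      = ∑' k, ε * (1 / 2) ^ (k + 1) * (‖w - x k‖ ^ p.toReal + |s| ^ p.toReal) := by
    simp_rw [mul_add]
    rw [Summable.tsum_add (pert_summable _ _ (by linarith) x R hR hε w) (hgeo.mul_right _),
      tsum_mul_right, hgeo1]
    rfl
  rw [hlim]
  unfold pert
  refine tendsto_tsum_of_dominated_convergence
    (bound := fun k => ε * (1 / 2) ^ (k + 1) * (‖w‖ + |s| + R) ^ p.toReal)
    (hgeo.mul_right _) ?_ ?_
  · intro k
    refine Tendsto.const_mul _ ?_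
    have := norm_add_single_tendsto hp (w - x k) s
    refine this.congr fun m => ?_
    rw [sub_add_eq_add_sub]
  · refine Eventually.of_forall fun m k => ?_
    have hnn : 0 ≤ ε * (1 / 2) ^ (k + 1) * ‖w + s • (e m : ell p) - x k‖ ^ p.toReal := by
      positivity
    rw [Real.norm_eq_abs, abs_of_nonneg hnn]
    refine mul_le_mul_of_nonneg_left (Real.rpow_le_rpow (norm_nonneg _) ?_ (by linarith))
      (by positivity)
    have h1 := norm_sub_le (w + s • (e m : ell p)) (x k)
    have h2 := norm_add_le w (s • (e m : ell p))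
    rw [norm_smul, norm_e, mul_one, Real.norm_eq_abs] at h2
    linarith [hR k]

theorem norm_sum_e (hp : p ≠ ⊤) (s : Finset ℕ) :
    ‖∑ i ∈ s, (e i : ell p)‖ ^ p.toReal = s.card := by
  have hr := one_le_toReal hp
  have := lp.norm_sum_single (E := fun _ : ℕ => ℝ) (by linarith : 0 < p.toReal) (fun _ => 1) s
  simpa [e] using this

/-! ### Truncations -/

/-- The truncation to the first `M` coordinates. -/
noncomputable def P (M : ℕ) : ell p →L[ℝ] ell p :=
  ∑ i ∈ Finset.range M, (lp.singleContinuousLinearMap ℝ (fun _ : ℕ => ℝ) p i).comp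
    (lp.evalCLM ℝ (fun _ : ℕ => ℝ) p i)

theorem P_apply (M : ℕ) (w : ell p) :
    P M w = ∑ i ∈ Finset.range M, lp.single p i (w i) := by
  rw [P, _root_.sum_apply]
  rfl

theorem norm_P (hp : p ≠ ⊤) (M : ℕ) (w : ell p) :
    ‖P M w‖ ^ p.toReal = ∑ i ∈ Finset.range M, |w i| ^ p.toReal := by
  have hr := one_le_toReal hp
  rw [P_apply, lp.norm_sum_single (by linarith : 0 < p.toReal)]
  rfl

theorem norm_P_add_le (hp : p ≠ ⊤) (M m : ℕ) (hm : M ≤ m) (w : ell p) :
    ‖P M w‖ ^ p.toReal + |w m| ^ p.toReal ≤ ‖w‖ ^ p.toReal := by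
  have hr := one_le_toReal hp
  have h := lp.sum_rpow_le_norm_rpow (by linarith : 0 < p.toReal) w (insert m (Finset.range M))
  rw [Finset.sum_insert (by rw [Finset.mem_range]; omega)] at h
  rw [norm_P hp, add_comm]
  exact h

theorem norm_P_le (hp : p ≠ ⊤) (M : ℕ) (w : ell p) : ‖P M w‖ ≤ ‖w‖ := by
  have hr := one_le_toReal hp
  have h := norm_P_add_le hp M M le_rfl w
  have h1 : 0 ≤ |w M| ^ p.toReal := by positivity
  exact (Real.rpow_le_rpow_iff (norm_nonneg _) (norm_nonneg _) (by linarith : 0 < p.toReal)).1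
    (by linarith)

theorem norm_P_tendsto (hp : p ≠ ⊤) (w : ell p) :
    Tendsto (fun M => ‖P M w‖ ^ p.toReal) atTop (𝓝 (‖w‖ ^ p.toReal)) := by
  have hr := one_le_toReal hp
  have h := (lp.hasSum_norm (by linarith : 0 < p.toReal) w).tendsto_sum_nat
  refine h.congr fun M => ?_
  rw [norm_P hp]
  rfl

/-! ### The limit functional -/

/-- The free ultrafilter used in the argument. -/
noncomputable abbrev U : Filter ℕ := (hyperfilter ℕ : Ultrafilter ℕ)

theorem U_le : U ≤ cofinite := hyperfilter_le_cofinite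

theorem exists_lim (a : ℕ → ℝ) (C : ℝ) (ha : ∀ n, |a n| ≤ C) :
    ∃ l, Tendsto a U (𝓝 l) := by
  have hc : IsCompact (Icc (-C) C) := isCompact_Icc
  have hle : ((hyperfilter ℕ).map a : Filter ℝ) ≤ 𝓟 (Icc (-C) C) := by
    rw [le_principal_iff]
    refine Filter.mem_map.2 (Filter.mem_of_superset univ_mem ?_)
    intro n _
    exact abs_le.1 (ha n)
  obtain ⟨l, -, hl⟩ := hc.ultrafilter_le_nhds ((hyperfilter ℕ).map a) hle
  exact ⟨l, hl⟩

theorem diag_bound (T : ell p →L[ℝ] ell p) (n : ℕ) : |(T (e n)) n| ≤ ‖T‖ := by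
  have h1 : |(T (e n)) n| ≤ ‖T (e n)‖ :=
    lp.norm_apply_le_norm (lt_of_lt_of_le zero_lt_one hp1.out).ne' (T (e n)) n
  have h2 := T.le_opNorm (e n)
  rw [norm_e, mul_one] at h2
  exact h1.trans h2

variable (p) in
/-- The limit of the diagonal entries of an operator. -/
theorem exists_lam : ∃ lam : (ell p →L[ℝ] ell p) →L[ℝ] ℝ,
    ∀ T, Tendsto (fun n => (T (e n)) n) U (𝓝 (lam T)) := by
  have h : ∀ T : ell p →L[ℝ] ell p, ∃ l, Tendsto (fun n => (T (e n)) n) U (𝓝 l) := fun T =>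
    exists_lim _ ‖T‖ (diag_bound T)
  choose l hl using h
  let L : (ell p →L[ℝ] ell p) →ₗ[ℝ] ℝ :=
    { toFun := l
      map_add' := fun S T => tendsto_nhds_unique (hl (S + T)) ((hl S).add (hl T))
      map_smul' := fun c T => tendsto_nhds_unique (hl (c • T)) ((hl T).const_mul c) }
  refine ⟨L.mkContinuous 1 fun T => ?_, hl⟩
  rw [one_mul]
  exact le_of_tendsto' (hl T).norm fun n => diag_bound T n

end Pool.Agent.X19.LPB
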