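import Mathlib

/-!
# Taylor expansions along a direction, and a variational principle
-/

set_option autoImplicit false

open Set Filter Topology

namespace Pool.Agent.X19.LPB

variable {E : Type} [NormedAddCommGroup E] [NormedSpace ℝ E]

/-- The `j`-th derivative of `φ` at `x` in the direction `v`. -/
noncomputable def dd (j : ℕ) (φ : E → ℝ) (x v : E) : ℝ := iteratedFDeriv ℝ j φ x (fun _ => v)

theorem iteratedDeriv_line {φ : E → ℝ} {n : ℕ} (hφ : ContDiff ℝ n φ) (x v : E) (j : ℕ)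
    (hj : j ≤ n) : iteratedDeriv j (fun s : ℝ => φ (x + s • v)) = fun s => dd j φ (x + s • v) v := by
  induction j with
  | zero =>
    funext s
    simp [dd]
  | succ j ih =>
    rw [iteratedDeriv_succ, ih (by omega)]
    funext s
    have h1 : DifferentiableAt ℝ (iteratedFDeriv ℝ j φ) (x + s • v) :=
      (hφ.differentiable_iteratedFDeriv (by exact_mod_cast hj)) _
    have h2 : HasDerivAt (fun s : ℝ => x + s • v) v s := by
      simpa using ((hasDerivAt_id s).smul_const v).const_add x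
    have h3 := h1.hasFDerivAt.comp_hasDerivAt s h2
    have h4 : HasDerivAt (fun s : ℝ => dd j φ (x + s • v) v)
        ((fderiv ℝ (iteratedFDeriv ℝ j φ) (x + s • v) v) (fun _ => v)) s := by
      have h5 := ((ContinuousMultilinearMap.apply ℝ (fun _ : Fin j => E) ℝ
        (fun _ => v)).hasFDerivAt (x := iteratedFDeriv ℝ j φ (x + s • v))).comp_hasDerivAt s h3
      exact h5
    rw [h4.deriv]
    rfl

theorem taylor_line {φ : E → ℝ} {n : ℕ} (hφ : ContDiff ℝ (n + 1 : ℕ) φ) (x v : E)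
    (hv : ‖v‖ ≤ 1) (t M : ℝ) (ht : 0 < t)
    (hM : ∀ s ∈ Icc (0 : ℝ) t, ‖iteratedFDeriv ℝ (n + 1) φ (x + s • v)‖ ≤ M) :
    |φ (x + t • v) - ∑ i ∈ Finset.range (n + 1), t ^ i / (i.factorial : ℝ) * dd i φ x v|
      ≤ M * t ^ (n + 1) := by
  set u : ℝ → ℝ := fun s => φ (x + s • v) with hu
  have hud : ContDiff ℝ (n + 1 : ℕ) u := hφ.comp (by fun_prop)
  have huniq : UniqueDiffOn ℝ (Icc (0 : ℝ) t) := uniqueDiffOn_Icc ht
  have hiter : ∀ j, j ≤ n + 1 → ∀ s ∈ Icc (0 : ℝ) t,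
      iteratedDerivWithin j u (Icc 0 t) s = dd j φ (x + s • v) v := by
    intro j hj s hs
    rw [iteratedDerivWithin_eq_iteratedDeriv huniq
      ((hud.of_le (by exact_mod_cast hj)).contDiffAt) hs,
      iteratedDeriv_line hφ x v j hj]
  have hM0 : 0 ≤ M := (norm_nonneg _).trans (hM 0 ⟨le_rfl, ht.le⟩)
  have hb := taylor_mean_remainder_bound (f := u) (a := 0) (b := t) (C := M) (x := t) (n := n)
    ht.le (by exact_mod_cast hud.contDiffOn) ⟨ht.le, le_rfl⟩ (by
      intro y hy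
      rw [hiter (n + 1) le_rfl y hy, dd]
      refine (ContinuousMultilinearMap.le_opNorm _ _).trans ?_
      refine (mul_le_of_le_one_right (norm_nonneg _) ?_).trans (hM y hy)
      exact Finset.prod_le_one (fun _ _ => norm_nonneg _) (fun _ _ => hv))
  rw [taylor_within_apply] at hb
  have hsum : ∑ k ∈ Finset.range (n + 1), ((k.factorial : ℝ)⁻¹ * (t - 0) ^ k) •
      iteratedDerivWithin k u (Icc 0 t) 0
      = ∑ i ∈ Finset.range (n + 1), t ^ i / (i.factorial : ℝ) * dd i φ x v := by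
    refine Finset.sum_congr rfl fun i hi => ?_
    rw [hiter i (by have := Finset.mem_range.1 hi; omega) 0 ⟨le_rfl, ht.le⟩, zero_smul, add_zero,
      sub_zero, smul_eq_mul]
    ring
  rw [hsum, Real.norm_eq_abs, sub_zero] at hb
  refine hb.trans ?_
  refine div_le_self (by positivity) ?_
  exact_mod_cast Nat.one_le_iff_ne_zero.2 (Nat.factorial_ne_zero n)

/-! ### A smooth variational principle of Borwein–Preiss type -/

/-- The perturbation attached to a sequence of points. -/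
noncomputable def pert (p ε : ℝ) (x : ℕ → E) (y : E) : ℝ :=
  ∑' k, ε * (1 / 2) ^ (k + 1) * ‖y - x k‖ ^ p

omit [NormedAddCommGroup E] [NormedSpace ℝ E] in
theorem exists_near_min (ψ : E → ℝ) (m : ℝ) (hm : ∀ y, m ≤ ψ y) (x : E) (δ : ℝ) (hδ : 0 < δ) :
    ∃ x', ψ x' ≤ ψ x ∧ ∀ y, ψ x' ≤ ψ y + δ := by
  have hbdd : BddBelow (range ψ) := ⟨m, by rintro _ ⟨y, rfl⟩; exact hm y⟩
  obtain ⟨_, ⟨w, rfl⟩, hw⟩ := exists_lt_of_csInf_lt (s := range ψ) ⟨ψ x, x, rfl⟩
    (show sInf (range ψ) < sInf (range ψ) + δ by linarith)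
  rcases le_total (ψ w) (ψ x) with h | h
  · refine ⟨w, h, fun y => ?_⟩
    have := csInf_le hbdd ⟨y, rfl⟩
    linarith
  · refine ⟨x, le_rfl, fun y => ?_⟩
    have := csInf_le hbdd ⟨y, rfl⟩
    linarith

omit [NormedSpace ℝ E] in
theorem pert_summable (p ε : ℝ) (hp : 0 < p) (x : ℕ → E) (R : ℝ) (hR : ∀ k, ‖x k‖ ≤ R)
    (hε : 0 < ε) (y : E) : Summable fun k => ε * (1 / 2) ^ (k + 1) * ‖y - x k‖ ^ p := by
  refine Summable.of_nonneg_of_le (f := fun k => ε * (1 / 2) ^ (k + 1) * (‖y‖ + R) ^ p)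
    (fun k => by positivity) (fun k => ?_) ?_
  · refine mul_le_mul_of_nonneg_left (Real.rpow_le_rpow (norm_nonneg _) ?_ hp.le) (by positivity)
    exact (norm_sub_le _ _).trans (by linarith [hR k])
  · refine Summable.mul_right _ (Summable.mul_left _ ?_)
    exact (summable_nat_add_iff 1).2 (summable_geometric_of_lt_one (by norm_num) (by norm_num))

omit [NormedSpace ℝ E] in
theorem variational [CompleteSpace E] (p : ℝ) (hp : 0 < p) (f : E → ℝ) (hf : Continuous f) (m : ℝ)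
    (hm : ∀ y, m ≤ f y) (x0 : E) (ε : ℝ) (hε : 0 < ε) :
    ∃ (x : ℕ → E) (R : ℝ) (z : E), (∀ k, ‖x k‖ ≤ R) ∧ f z ≤ f x0 ∧
      ∀ y, f z + pert p ε x z ≤ f y + pert p ε x y := by
  classical
  let μ : ℕ → ℝ := fun k => ε * (1 / 2) ^ (k + 1)
  have hμ : ∀ k, 0 < μ k := fun k => by positivity
  let δ : ℕ → ℝ := fun k => μ k * ((1 / 2 : ℝ) ^ k) ^ p
  have hδ : ∀ k, 0 < δ k := fun k => by
    have := hμ k
    positivity
  have step : ∀ (i : ℕ) (s : {s : (E → ℝ) × E // ∀ y, m ≤ s.1 y}),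
      ∃ s' : {s : (E → ℝ) × E // ∀ y, m ≤ s.1 y},
        (∀ y, s'.1.1 y = s.1.1 y + μ i * ‖y - s.1.2‖ ^ p) ∧
        s'.1.1 s'.1.2 ≤ s'.1.1 s.1.2 ∧ ∀ y, s'.1.1 s'.1.2 ≤ s'.1.1 y + δ (i + 1) := by
    rintro i ⟨⟨ψ, x⟩, hs⟩
    have hb : ∀ y, m ≤ ψ y + μ i * ‖y - x‖ ^ p := fun y => by
      have h1 : 0 ≤ μ i * ‖y - x‖ ^ p := mul_nonneg (hμ i).le (by positivity)
      have h2 : m ≤ ψ y := hs y
      linarith
    obtain ⟨x', h1, h2⟩ := exists_near_min (fun y => ψ y + μ i * ‖y - x‖ ^ p) m hb x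
      (δ (i + 1)) (hδ _)
    exact ⟨⟨⟨fun y => ψ y + μ i * ‖y - x‖ ^ p, x'⟩, hb⟩, fun y => rfl, h1, h2⟩
  choose nxt hn1 hn2 hn3 using step
  let st : ℕ → {s : (E → ℝ) × E // ∀ y, m ≤ s.1 y} := fun n =>
    Nat.rec ⟨⟨f, x0⟩, hm⟩ (fun i s => nxt i s) n
  have hst : ∀ n, st (n + 1) = nxt n (st n) := fun n => rfl
  let F : ℕ → E → ℝ := fun n => (st n).1.1
  let x : ℕ → E := fun n => (st n).1.2
  have hF0 : F 0 = f := rfl
  have hx0 : x 0 = x0 := rfl
  have hF1 : ∀ n y, F (n + 1) y = F n y + μ n * ‖y - x n‖ ^ p := fun n y => hn1 n (st n) y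
  have hF2 : ∀ n, F (n + 1) (x (n + 1)) ≤ F (n + 1) (x n) := fun n => hn2 n (st n)
  have hF3 : ∀ n y, F (n + 1) (x (n + 1)) ≤ F (n + 1) y + δ (n + 1) := fun n => hn3 n (st n)
  clear_value F x
  have hself : ∀ n, F (n + 1) (x n) = F n (x n) := fun n => by
    rw [hF1, sub_self, norm_zero, Real.zero_rpow hp.ne', mul_zero, add_zero]
  have hsum : ∀ n y, F n y = f y + ∑ k ∈ Finset.range n, μ k * ‖y - x k‖ ^ p := by
    intro n y
    induction n with
    | zero => simp [hF0]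
    | succ n ih => rw [hF1, ih, Finset.sum_range_succ, add_assoc]
  have hdec : ∀ n, F n (x n) ≤ f x0 := by
    intro n
    induction n with
    | zero => rw [hF0, hx0]
    | succ n ih => exact (hF2 n).trans ((hself n).le.trans ih)
  have hfF : ∀ n y, f y ≤ F n y := by
    intro n y
    rw [hsum]
    have : 0 ≤ ∑ k ∈ Finset.range n, μ k * ‖y - x k‖ ^ p :=
      Finset.sum_nonneg fun k _ => mul_nonneg (hμ k).le (by positivity)
    linarith
  -- the sequence is Cauchy
  have hdist : ∀ n, dist (x (n + 1)) (x (n + 2)) ≤ (1 / 2) ^ (n + 1) := by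
    intro n
    have h1 := hF2 (n + 1)
    rw [hself, hF1] at h1
    have h2 := hF3 n (x (n + 2))
    have h3 : μ (n + 1) * ‖x (n + 2) - x (n + 1)‖ ^ p ≤ δ (n + 1) := by
      have e : n + 1 + 1 = n + 2 := rfl
      rw [e] at h1
      linarith
    have h4 : ‖x (n + 2) - x (n + 1)‖ ^ p ≤ ((1 / 2 : ℝ) ^ (n + 1)) ^ p :=
      le_of_mul_le_mul_left h3 (hμ _)
    rw [dist_comm, dist_eq_norm]
    exact (Real.rpow_le_rpow_iff (norm_nonneg _) (by positivity) hp).1 h4
  have hcauchy : CauchySeq x := by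
    refine cauchySeq_of_le_geometric (1 / 2) (max (dist (x 0) (x 1)) 1) (by norm_num) ?_
    intro n
    cases n with
    | zero => simp
    | succ n =>
      refine (hdist n).trans ?_
      refine le_mul_of_one_le_left (by positivity) (le_max_right _ _)
  obtain ⟨z, hz⟩ := cauchySeq_tendsto_of_complete hcauchy
  obtain ⟨R, hR⟩ : ∃ R, ∀ k, ‖x k‖ ≤ R := by
    obtain ⟨R, hR⟩ := hz.norm.bddAbove_range
    exact ⟨R, fun k => hR ⟨k, rfl⟩⟩
  have hfx : Tendsto (fun n => f (x n)) atTop (𝓝 (f z)) := (hf.tendsto z).comp hz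
  refine ⟨x, R, z, hR, ?_, ?_⟩
  · exact le_of_tendsto' hfx fun n => (hfF n _).trans (hdec n)
  · intro y
    have hsy := pert_summable p ε hp x R hR hε y
    have hsz := pert_summable p ε hp x R hR hε z
    have hδ0 : Tendsto δ atTop (𝓝 0) := by
      have hm1 : Tendsto μ atTop (𝓝 0) := by
        have : Tendsto (fun k => ε * (1 / 2 : ℝ) ^ (k + 1)) atTop (𝓝 (ε * 0)) :=
          ((tendsto_add_atTop_iff_nat 1).2 (tendsto_pow_atTop_nhds_zero_of_lt_one (by norm_num)
            (by norm_num))).const_mul ε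
        rwa [mul_zero] at this
      refine squeeze_zero (fun n => (hδ n).le) (fun n => ?_) hm1
      refine mul_le_of_le_one_right (hμ n).le ?_
      exact Real.rpow_le_one (by positivity) (pow_le_one₀ (by norm_num) (by norm_num)) hp.le
    have hpart : ∀ N, f z + ∑ k ∈ Finset.range N, μ k * ‖z - x k‖ ^ p ≤ f y + pert p ε x y := by
      intro N
      have hl : Tendsto (fun i => f (x i) + ∑ k ∈ Finset.range N, μ k * ‖x i - x k‖ ^ p) atTop
          (𝓝 (f z + ∑ k ∈ Finset.range N, μ k * ‖z - x k‖ ^ p)) := by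
        refine hfx.add (tendsto_finsetSum _ fun k _ => ?_)
        refine Tendsto.const_mul _ ?_
        exact (hz.sub_const (x k)).norm.rpow_const (Or.inr hp.le)
      have hr : Tendsto (fun i => f y + pert p ε x y + δ i) atTop (𝓝 (f y + pert p ε x y + 0)) :=
        hδ0.const_add _
      rw [add_zero] at hr
      refine le_of_tendsto_of_tendsto hl hr ?_
      filter_upwards [eventually_ge_atTop (N + 1)] with i hi
      obtain ⟨j, rfl⟩ : ∃ j, i = j + 1 := ⟨i - 1, by omega⟩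
      have h1 := hF3 j y
      rw [hsum, hsum] at h1
      have h2 : ∑ k ∈ Finset.range N, μ k * ‖x (j + 1) - x k‖ ^ p
          ≤ ∑ k ∈ Finset.range (j + 1), μ k * ‖x (j + 1) - x k‖ ^ p :=
        Finset.sum_le_sum_of_subset_of_nonneg (Finset.range_subset_range.2 (by omega))
          fun k _ _ => mul_nonneg (hμ k).le (by positivity)
      have h3 : ∑ k ∈ Finset.range (j + 1), μ k * ‖y - x k‖ ^ p ≤ pert p ε x y :=
        hsy.sum_le_tsum _ fun k _ => mul_nonneg (hμ k).le (by positivity)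
      linarith
    have hlim : Tendsto (fun N => f z + ∑ k ∈ Finset.range N, μ k * ‖z - x k‖ ^ p) atTop
        (𝓝 (f z + pert p ε x z)) := (hsz.hasSum.tendsto_sum_nat).const_add _
    exact le_of_tendsto' hlim hpart

end Pool.Agent.X19.LPB
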