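import Pool.Agent.X19.LPB.Seq

/-!
# Vanishing of the diagonal derivatives of order less than `p`
-/

set_option autoImplicit false

open Set Filter Topology
open scoped ENNReal

namespace Pool.Agent.X19.LPB

variable {p : ℝ≥0∞} [hp1 : Fact (1 ≤ p)]

theorem dd_bound (j : ℕ) (φ : ell p → ℝ) (x : ell p) (n : ℕ) :
    |dd j φ x (e n)| ≤ ‖iteratedFDeriv ℝ j φ x‖ := by
  refine (ContinuousMultilinearMap.le_opNorm (iteratedFDeriv ℝ j φ x) (fun _ => e n)).trans ?_
  refine mul_le_of_le_one_right (norm_nonneg _) ?_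
  exact Finset.prod_le_one (fun _ _ => norm_nonneg _) (fun _ _ => (norm_e n).le)

theorem dd_sub_bound (j : ℕ) (φ : ell p → ℝ) (x y : ell p) (n : ℕ) :
    |dd j φ x (e n) - dd j φ y (e n)| ≤ ‖iteratedFDeriv ℝ j φ x - iteratedFDeriv ℝ j φ y‖ := by
  refine (ContinuousMultilinearMap.le_opNorm
    (iteratedFDeriv ℝ j φ x - iteratedFDeriv ℝ j φ y) (fun _ => e n)).trans ?_
  refine mul_le_of_le_one_right (norm_nonneg _) ?_
  exact Finset.prod_le_one (fun _ _ => norm_nonneg _) (fun _ _ => (norm_e n).le)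

theorem dd_smul (j : ℕ) (φ : ell p → ℝ) (x v : ell p) (c : ℝ) :
    dd j φ x (c • v) = c ^ j * dd j φ x v := by
  have h := (iteratedFDeriv ℝ j φ x).map_smul_univ (fun _ => c) (fun _ => v)
  rw [Finset.prod_const, Finset.card_univ, Fintype.card_fin] at h
  exact h

/-- One step: the increments of `φ` in the direction of far unit vectors. -/
theorem step_tendsto' {φ : ell p → ℝ} {j : ℕ} (hφ : ContDiff ℝ (j + 1 : ℕ) φ)
    (ih : ∀ i, 1 ≤ i → i < j → ∀ x : ell p, Tendsto (fun n => dd i φ x (e n)) U (𝓝 0))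
    (hj : 1 ≤ j) (x : ell p) (a t M σ : ℝ) (hσ : |σ| = 1) (ht : 0 < t)
    (hM : ∀ y, ‖y - x‖ ≤ t → ‖iteratedFDeriv ℝ (j + 1) φ y‖ ≤ M)
    (ha : Tendsto (fun n => dd j φ x (e n)) U (𝓝 a)) (η : ℝ) (hη : 0 < η) :
    ∀ᶠ n in U, |φ (x + t • σ • e n) - φ x - t ^ j / (j.factorial : ℝ) * (σ ^ j * a)|
      ≤ M * t ^ (j + 1) + η := by
  have hnorm : ∀ n, ‖σ • (e n : ell p)‖ = 1 := fun n => by
    rw [norm_smul, norm_e, mul_one, Real.norm_eq_abs, hσ]
  have hT : ∀ n, |φ (x + t • σ • e n) - ∑ i ∈ Finset.range (j + 1),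
      t ^ i / (i.factorial : ℝ) * dd i φ x (σ • e n)| ≤ M * t ^ (j + 1) := by
    intro n
    refine taylor_line hφ x (σ • e n) (hnorm n).le t M ht fun s hs => hM _ ?_
    rw [add_sub_cancel_left, norm_smul, hnorm, mul_one, Real.norm_eq_abs, abs_of_nonneg hs.1]
    exact hs.2
  have hlim : Tendsto (fun n => ∑ i ∈ Finset.range (j + 1), t ^ i / (i.factorial : ℝ) *
      dd i φ x (σ • e n)) U (𝓝 (φ x + t ^ j / (j.factorial : ℝ) * (σ ^ j * a))) := by
    have h1 : Tendsto (fun n => ∑ i ∈ Finset.range (j + 1), t ^ i / (i.factorial : ℝ) *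
        dd i φ x (σ • e n)) U (𝓝 (∑ i ∈ Finset.range (j + 1), t ^ i / (i.factorial : ℝ) *
          (if i = 0 then φ x else if i = j then σ ^ j * a else 0))) := by
      refine tendsto_finsetSum _ fun i hi => Tendsto.const_mul _ ?_
      rw [Finset.mem_range] at hi
      simp_rw [dd_smul]
      by_cases h0 : i = 0
      · subst h0
        simp [dd]
      · by_cases hij : i = j
        · subst hij
          rw [if_neg h0, if_pos rfl]
          exact ha.const_mul _
        · rw [if_neg h0, if_neg hij]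
          have := (ih i (by omega) (by omega) x).const_mul (σ ^ i)
          rwa [mul_zero] at this
    have h2 : ∑ i ∈ Finset.range (j + 1), t ^ i / (i.factorial : ℝ) *
        (if i = 0 then φ x else if i = j then σ ^ j * a else 0)
        = φ x + t ^ j / (j.factorial : ℝ) * (σ ^ j * a) := by
      rw [Finset.sum_range_succ, if_neg (by omega), if_pos rfl]
      congr 1
      rw [Finset.sum_eq_single 0]
      · simp
      · intro b hb hb0
        rw [Finset.mem_range] at hb
        rw [if_neg hb0, if_neg (by omega), mul_zero]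
      · intro h
        exact absurd (Finset.mem_range.2 (by omega)) h
    rw [h2] at h1
    exact h1
  have hev := (Metric.tendsto_nhds.1 hlim) η hη
  filter_upwards [hev] with n hn
  rw [Real.dist_eq] at hn
  have h3 := hT n
  rw [abs_le] at h3 ⊢
  rw [abs_lt] at hn
  constructor <;> linarith [h3.1, h3.2, hn.1, hn.2]

theorem step_tendsto {φ : ell p → ℝ} {j : ℕ} (hφ : ContDiff ℝ (j + 1 : ℕ) φ)
    (ih : ∀ i, 1 ≤ i → i < j → ∀ x : ell p, Tendsto (fun n => dd i φ x (e n)) U (𝓝 0))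
    (hj : 1 ≤ j) (x : ell p) (a t M : ℝ) (ht : 0 < t)
    (hM : ∀ y, ‖y - x‖ ≤ t → ‖iteratedFDeriv ℝ (j + 1) φ y‖ ≤ M)
    (ha : Tendsto (fun n => dd j φ x (e n)) U (𝓝 a)) (η : ℝ) (hη : 0 < η) :
    ∀ᶠ n in U, |φ (x + t • e n) - φ x - t ^ j / (j.factorial : ℝ) * a| ≤ M * t ^ (j + 1) + η := by
  have h := step_tendsto' hφ ih hj x a t M 1 abs_one ht hM ha η hη
  simpa only [one_smul, one_pow, one_mul] using h

/-- The diagonal derivatives of order `j < p` vanish at infinity: one inequality. -/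
theorem vanish_le (hp : p ≠ ⊤) {φ : ell p → ℝ} {j : ℕ} (hφ : ContDiff ℝ (j + 1 : ℕ) φ)
    (ih : ∀ i, 1 ≤ i → i < j → ∀ x : ell p, Tendsto (fun n => dd i φ x (e n)) U (𝓝 0))
    (hj : 1 ≤ j) (hjp : (j : ℝ) < p.toReal) (x0 : ell p) (a : ℝ)
    (ha : Tendsto (fun n => dd j φ x0 (e n)) U (𝓝 a)) : a ≤ 0 := by
  by_contra hapos
  push Not at hapos
  have hr := one_le_toReal hp
  -- uniform constants near `x0`
  obtain ⟨r, hr0, M, B, hM0, hM, hB, hnear⟩ : ∃ r > 0, ∃ M B : ℝ, 0 < M ∧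
      (∀ y, ‖y - x0‖ < 2 * r → ‖iteratedFDeriv ℝ (j + 1) φ y‖ ≤ M) ∧
      (∀ y, ‖y - x0‖ < 2 * r → |φ y| ≤ B) ∧
      (∀ y, ‖y - x0‖ < 2 * r →
        ‖iteratedFDeriv ℝ j φ y - iteratedFDeriv ℝ j φ x0‖ ≤ a / 2) := by
    have c1 : ContinuousAt (iteratedFDeriv ℝ (j + 1) φ) x0 :=
      (hφ.continuous_iteratedFDeriv le_rfl).continuousAt
    have c2 : ContinuousAt φ x0 := hφ.continuous.continuousAt
    have c3 : ContinuousAt (iteratedFDeriv ℝ j φ) x0 :=
      (hφ.continuous_iteratedFDeriv (by exact_mod_cast Nat.le_succ j)).continuousAt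
    obtain ⟨r1, h1, h1'⟩ := Metric.continuousAt_iff.1 c1 1 one_pos
    obtain ⟨r2, h2, h2'⟩ := Metric.continuousAt_iff.1 c2 1 one_pos
    obtain ⟨r3, h3, h3'⟩ := Metric.continuousAt_iff.1 c3 (a / 2) (by positivity)
    have hmin : 0 < min r1 (min r2 r3) := lt_min h1 (lt_min h2 h3)
    refine ⟨min r1 (min r2 r3) / 2, by positivity, ‖iteratedFDeriv ℝ (j + 1) φ x0‖ + 1,
      |φ x0| + 1, by positivity, ?_, ?_, ?_⟩
    · intro y hy
      have hy' : dist y x0 < r1 := by
        rw [dist_eq_norm]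
        exact lt_of_lt_of_le (by linarith) (min_le_left r1 (min r2 r3))
      have h := h1' hy'
      rw [dist_eq_norm] at h
      have := norm_sub_norm_le (iteratedFDeriv ℝ (j + 1) φ y) (iteratedFDeriv ℝ (j + 1) φ x0)
      linarith
    · intro y hy
      have hy' : dist y x0 < r2 := by
        rw [dist_eq_norm]
        exact lt_of_lt_of_le (by linarith) ((min_le_right r1 (min r2 r3)).trans (min_le_left _ _))
      have h := h2' hy'
      rw [Real.dist_eq] at h
      have := abs_sub_abs_le_abs_sub (φ y) (φ x0)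
      linarith
    · intro y hy
      have hy' : dist y x0 < r3 := by
        rw [dist_eq_norm]
        exact lt_of_lt_of_le (by linarith) ((min_le_right r1 (min r2 r3)).trans (min_le_right _ _))
      have h := h3' hy'
      rw [dist_eq_norm] at h
      exact h.le
  -- a single step
  have hstep : ∀ t : ℝ, 0 < t → t < r → M * t ≤ a / (16 * (j.factorial : ℝ)) →
      ∀ x, ‖x - x0‖ ≤ r → ∀ᶠ n in U,
        φ x + t ^ j / (j.factorial : ℝ) * (a / 8) ≤ φ (x + t • e n) := by
    intro t ht htr htM x hx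
    have hfac : (0 : ℝ) < j.factorial := by exact_mod_cast Nat.factorial_pos j
    obtain ⟨b, hb⟩ := exists_lim (fun n => dd j φ x (e n)) _ (dd_bound j φ x)
    have hba : a / 2 ≤ b := by
      have h1 : Tendsto (fun n => |dd j φ x (e n) - dd j φ x0 (e n)|) U (𝓝 |b - a|) :=
        (hb.sub ha).abs
      have h2 : |b - a| ≤ a / 2 := le_of_tendsto' h1 fun n =>
        (dd_sub_bound j φ x x0 n).trans (hnear x (by linarith))
      have h3 := (abs_le.1 h2).1
      linarith
    have hη : 0 < t ^ j / (j.factorial : ℝ) * (a / 16) := by positivity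
    have hev := step_tendsto hφ ih hj x b t M ht (fun y hy => hM y (by
      have : ‖y - x0‖ ≤ ‖y - x‖ + ‖x - x0‖ := by
        have := norm_add_le (y - x) (x - x0)
        rwa [sub_add_sub_cancel] at this
      linarith)) hb _ hη
    filter_upwards [hev] with n hn
    have h1 := (abs_le.1 hn).1
    have h2 : t ^ j / (j.factorial : ℝ) * (a / 2) ≤ t ^ j / (j.factorial : ℝ) * b :=
      mul_le_mul_of_nonneg_left hba (by positivity)
    have h3 : M * t ^ (j + 1) ≤ t ^ j / (j.factorial : ℝ) * (a / 16) := by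
      calc M * t ^ (j + 1) = t ^ j * (M * t) := by ring
        _ ≤ t ^ j * (a / (16 * (j.factorial : ℝ))) :=
            mul_le_mul_of_nonneg_left htM (by positivity)
        _ = t ^ j / (j.factorial : ℝ) * (a / 16) := by
            field_simp
    have h4 : t ^ j / (j.factorial : ℝ) * (a / 2) = t ^ j / (j.factorial : ℝ) * (a / 8)
      + t ^ j / (j.factorial : ℝ) * (a / 16) + t ^ j / (j.factorial : ℝ) * (a / 16)
      + t ^ j / (j.factorial : ℝ) * (a / 4) := by ring
    have h5 : 0 ≤ t ^ j / (j.factorial : ℝ) * (a / 4) := by positivity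
    linarith
  -- many steps
  have hmany : ∀ t : ℝ, 0 < t → t < r → M * t ≤ a / (16 * (j.factorial : ℝ)) →
      ∀ k : ℕ, (k : ℝ) * t ^ p.toReal ≤ r ^ p.toReal →
        ∃ s : Finset ℕ, s.card = k ∧
          φ x0 + k * (t ^ j / (j.factorial : ℝ) * (a / 8)) ≤ φ (x0 + t • ∑ i ∈ s, e i) := by
    intro t ht htr htM k
    induction k with
    | zero =>
      intro _
      exact ⟨∅, rfl, by simp⟩
    | succ k ihk =>
      intro hk
      have htp : 0 < t ^ p.toReal := Real.rpow_pos_of_pos ht _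
      have hk' : (k : ℝ) * t ^ p.toReal ≤ r ^ p.toReal := by
        push_cast at hk
        linarith
      obtain ⟨s, hs, hφs⟩ := ihk hk'
      have hx : ‖x0 + t • ∑ i ∈ s, e i - x0‖ ≤ r := by
        rw [add_sub_cancel_left]
        refine (Real.rpow_le_rpow_iff (norm_nonneg _) hr0.le (by linarith : 0 < p.toReal)).1 ?_
        rw [norm_smul, Real.norm_eq_abs, abs_of_pos ht, Real.mul_rpow ht.le (norm_nonneg _),
          norm_sum_e hp, hs]
        linarith
      have hev := hstep t ht htr htM _ hx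
      have hnot : ∀ᶠ n in U, n ∉ s := U_le (s.finite_toSet.compl_mem_cofinite)
      obtain ⟨n, hn1, hn2⟩ := (hev.and hnot).exists
      refine ⟨insert n s, by rw [Finset.card_insert_of_notMem hn2, hs], ?_⟩
      rw [Finset.sum_insert hn2]
      have : x0 + t • (e n + ∑ i ∈ s, e i) = x0 + t • ∑ i ∈ s, e i + t • e n := by
        rw [smul_add]
        abel
      rw [this]
      push_cast
      linarith
  -- conclusion
  have hfac : (0 : ℝ) < j.factorial := by exact_mod_cast Nat.factorial_pos j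
  have hC : 0 < a / (8 * (j.factorial : ℝ)) := by positivity
  set C : ℝ := a / (8 * (j.factorial : ℝ)) with hCdef
  have hBpos : 0 ≤ B := (abs_nonneg _).trans (hB x0 (by rw [sub_self, norm_zero]; linarith))
  have hrp : 0 < r ^ p.toReal := Real.rpow_pos_of_pos hr0 _
  have e1 : ∀ᶠ t : ℝ in 𝓝[>] 0, t < r := nhdsWithin_le_nhds (gt_mem_nhds hr0)
  have e2 : ∀ᶠ t : ℝ in 𝓝[>] 0, t < 1 := nhdsWithin_le_nhds (gt_mem_nhds one_pos)
  have e3 : ∀ᶠ t : ℝ in 𝓝[>] 0, t < a / (16 * (j.factorial : ℝ)) / M :=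
    nhdsWithin_le_nhds (gt_mem_nhds (by positivity))
  have e4 : ∀ᶠ t : ℝ in 𝓝[>] 0, ((2 * B + 1) / C + 1) / r ^ p.toReal
      ≤ t ^ (-(p.toReal - (j : ℝ))) :=
    (tendsto_rpow_neg_nhdsGT_zero (by linarith)).eventually_ge_atTop _
  have e5 : ∀ᶠ t : ℝ in 𝓝[>] 0, 0 < t := self_mem_nhdsWithin
  obtain ⟨t, h1, h2, h3, h4, h5⟩ := (e1.and (e2.and (e3.and (e4.and e5)))).exists
  have htp : 0 < t ^ p.toReal := Real.rpow_pos_of_pos h5 _
  set k : ℕ := ⌊r ^ p.toReal / t ^ p.toReal⌋₊ with hk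
  have hk1 : (k : ℝ) ≤ r ^ p.toReal / t ^ p.toReal := Nat.floor_le (by positivity)
  have hk2 : r ^ p.toReal / t ^ p.toReal < k + 1 := Nat.lt_floor_add_one _
  have hk3 : (k : ℝ) * t ^ p.toReal ≤ r ^ p.toReal := by
    rwa [le_div_iff₀ htp] at hk1
  have hMt : M * t ≤ a / (16 * (j.factorial : ℝ)) := by
    rw [lt_div_iff₀ hM0] at h3
    linarith
  obtain ⟨s, hs, hφs⟩ := hmany t h5 h1 hMt k hk3
  have hx : ‖x0 + t • ∑ i ∈ s, e i - x0‖ ≤ r := by
    rw [add_sub_cancel_left]
    refine (Real.rpow_le_rpow_iff (norm_nonneg _) hr0.le (by linarith : 0 < p.toReal)).1 ?_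
    rw [norm_smul, Real.norm_eq_abs, abs_of_pos h5, Real.mul_rpow h5.le (norm_nonneg _),
      norm_sum_e hp, hs]
    linarith
  have b1 := (abs_le.1 (hB _ (lt_of_le_of_lt hx (by linarith)))).2
  have b2 := (abs_le.1 (hB x0 (by rw [sub_self, norm_zero]; linarith))).1
  have hkey : (k : ℝ) * (t ^ j * C) ≤ 2 * B := by
    have : (k : ℝ) * (t ^ j / (j.factorial : ℝ) * (a / 8)) = (k : ℝ) * (t ^ j * C) := by
      rw [hCdef]
      field_simp
    linarith
  have htj : 0 < t ^ j := by positivity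
  have hpow : r ^ p.toReal / t ^ p.toReal * t ^ j
      = r ^ p.toReal * t ^ (-(p.toReal - (j : ℝ))) := by
    rw [neg_sub, Real.rpow_sub h5, Real.rpow_natCast]
    ring
  have hlow : (2 * B + 1) / C + 1 ≤ r ^ p.toReal / t ^ p.toReal * t ^ j := by
    rw [hpow]
    rw [div_le_iff₀ hrp] at h4
    linarith
  have htj1 : t ^ j ≤ 1 := pow_le_one₀ h5.le h2.le
  have h6 : r ^ p.toReal / t ^ p.toReal * t ^ j ≤ k * t ^ j + t ^ j := by
    have := mul_le_mul_of_nonneg_right hk2.le htj.le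
    linarith
  have h7 : (2 * B + 1) / C ≤ k * t ^ j := by linarith
  rw [div_le_iff₀ hC] at h7
  have h8 : (k : ℝ) * t ^ j * C = (k : ℝ) * (t ^ j * C) := by ring
  linarith

theorem dd_neg (j : ℕ) (φ : ell p → ℝ) (x v : ell p) : dd j (-φ) x v = -dd j φ x v := by
  rw [dd, dd, iteratedFDeriv_neg_apply]
  rfl

/-- The diagonal derivatives of order `j < p` vanish at infinity. -/
theorem vanish (hp : p ≠ ⊤) (k : ℕ) : ∀ j : ℕ, 1 ≤ j → j ≤ k → (j : ℝ) < p.toReal →
    ∀ φ : ell p → ℝ, ContDiff ℝ (k + 1 : ℕ) φ → ∀ x : ell p,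
      Tendsto (fun n => dd j φ x (e n)) U (𝓝 0) := by
  intro j
  induction j using Nat.strong_induction_on with
  | _ j ihj =>
    intro hj hjk hjp φ hφ x
    have hφj : ContDiff ℝ (j + 1 : ℕ) φ := hφ.of_le (by exact_mod_cast Nat.succ_le_succ hjk)
    have ih : ∀ ψ : ell p → ℝ, ContDiff ℝ (k + 1 : ℕ) ψ → ∀ i, 1 ≤ i → i < j → ∀ x : ell p,
        Tendsto (fun n => dd i ψ x (e n)) U (𝓝 0) := by
      intro ψ hψ i hi hij x
      refine ihj i hij hi (by omega) ?_ ψ hψ x
      have : (i : ℝ) < j := by exact_mod_cast hij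
      linarith
    obtain ⟨a, ha⟩ := exists_lim (fun n => dd j φ x (e n)) _ (dd_bound j φ x)
    have h1 : a ≤ 0 := vanish_le hp hφj (ih φ hφ) hj hjp x a ha
    have h2 : -a ≤ 0 := vanish_le hp (φ := -φ) hφj.neg (ih (-φ) hφ.neg) hj hjp x (-a) (by
      refine ha.neg.congr fun n => ?_
      rw [dd_neg])
    have h3 : a = 0 := by linarith
    rwa [h3] at ha

/-- If `p` is not an even integer, the functions of class `C^q`, `q > p`, do not see the
directions `e n - e m` up to the order `q`. -/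
theorem increment (hp : p ≠ ⊤) (hpe : ∀ n : ℕ, p.toReal ≠ 2 * n) (k : ℕ)
    (hk : k = ⌊p.toReal⌋₊) {φ : ell p → ℝ} (hφ : ContDiff ℝ (k + 1 : ℕ) φ) (z : ell p) (t M : ℝ)
    (ht : 0 < t) (hM : ∀ y, ‖y - z‖ ≤ 2 * t → ‖iteratedFDeriv ℝ (k + 1) φ y‖ ≤ M) (η : ℝ)
    (hη : 0 < η) :
    ∀ᶠ n in U, ∀ᶠ m in U,
      |φ (z + t • e n + t • (-1 : ℝ) • e m) - φ z| ≤ 3 * M * t ^ (k + 1) + η := by
  have hr := one_le_toReal hp
  have hk1 : 1 ≤ k := by
    rw [hk]
    exact Nat.le_floor (by simpa using hr)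
  have hkp : (k : ℝ) ≤ p.toReal := by
    rw [hk]
    exact Nat.floor_le (by linarith)
  have ih : ∀ i, 1 ≤ i → i < k → ∀ x : ell p, Tendsto (fun n => dd i φ x (e n)) U (𝓝 0) := by
    intro i hi hik x
    refine vanish hp k i hi hik.le ?_ φ hφ x
    have : (i : ℝ) < k := by exact_mod_cast hik
    linarith
  have hM0 : 0 ≤ M := (norm_nonneg _).trans (hM z (by rw [sub_self, norm_zero]; linarith))
  obtain ⟨a, ha⟩ := exists_lim (fun n => dd k φ z (e n)) _ (dd_bound k φ z)
  have hfirst := step_tendsto hφ ih hk1 z a t M ht (fun y hy => hM y (by linarith)) ha (η / 2)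
    (by positivity)
  filter_upwards [hfirst] with n hn
  set x' : ell p := z + t • e n with hx'
  have hx'z : ‖x' - z‖ = t := by
    rw [hx', add_sub_cancel_left, norm_smul, norm_e, mul_one, Real.norm_eq_abs, abs_of_pos ht]
  obtain ⟨b, hb⟩ := exists_lim (fun n => dd k φ x' (e n)) _ (dd_bound k φ x')
  have hsecond := step_tendsto' hφ ih hk1 x' b t M (-1) (by norm_num) ht (fun y hy => hM y (by
    have : ‖y - z‖ ≤ ‖y - x'‖ + ‖x' - z‖ := by
      have := norm_add_le (y - x') (x' - z)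
      rwa [sub_add_sub_cancel] at this
    linarith)) hb (η / 2) (by positivity)
  have hab : |a + (-1) ^ k * b| ≤ M * t := by
    rcases hkp.lt_or_eq with hlt | heq
    · have ha0 : a = 0 := tendsto_nhds_unique ha (vanish hp k k hk1 le_rfl hlt φ hφ z)
      have hb0 : b = 0 := tendsto_nhds_unique hb (vanish hp k k hk1 le_rfl hlt φ hφ x')
      rw [ha0, hb0, mul_zero, add_zero, abs_zero]
      positivity
    · have hodd : Odd k := by
        rw [← Nat.not_even_iff_odd]
        rintro ⟨l, hl⟩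
        apply hpe l
        rw [← heq, hl]
        push_cast
        ring
      rw [hodd.neg_one_pow, neg_one_mul, ← sub_eq_add_neg]
      have h1 : Tendsto (fun n => |dd k φ z (e n) - dd k φ x' (e n)|) U (𝓝 |a - b|) :=
        (ha.sub hb).abs
      have h2 : ‖iteratedFDeriv ℝ k φ z - iteratedFDeriv ℝ k φ x'‖ ≤ M * ‖z - x'‖ := by
        refine Convex.norm_image_sub_le_of_norm_fderiv_le (𝕜 := ℝ)
          (s := Metric.closedBall z (2 * t)) ?_ ?_ (convex_closedBall _ _) ?_ ?_
        · intro y _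
          exact (hφ.differentiable_iteratedFDeriv (by exact_mod_cast Nat.lt_succ_self k)) y
        · intro y hy
          rw [norm_fderiv_iteratedFDeriv]
          exact hM y (by rwa [← dist_eq_norm])
        · rw [Metric.mem_closedBall, dist_eq_norm, hx'z]
          linarith
        · exact Metric.mem_closedBall_self (by linarith)
      rw [norm_sub_rev z x', hx'z] at h2
      exact le_of_tendsto' h1 fun n => (dd_sub_bound k φ z x' n).trans h2
  filter_upwards [hsecond] with m hm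
  have hfac : (1 : ℝ) ≤ k.factorial := by exact_mod_cast Nat.factorial_pos k
  have h3 : |t ^ k / (k.factorial : ℝ) * (a + (-1) ^ k * b)| ≤ M * t ^ (k + 1) := by
    rw [abs_mul, abs_of_nonneg (by positivity : 0 ≤ t ^ k / (k.factorial : ℝ))]
    calc t ^ k / (k.factorial : ℝ) * |a + (-1) ^ k * b| ≤ t ^ k * (M * t) :=
          mul_le_mul (div_le_self (by positivity) hfac) hab (abs_nonneg _) (by positivity)
      _ = M * t ^ (k + 1) := by ring
  have h4 : t ^ k / (k.factorial : ℝ) * (a + (-1) ^ k * b)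
    = t ^ k / (k.factorial : ℝ) * a + t ^ k / (k.factorial : ℝ) * ((-1) ^ k * b) := by ring
  rw [h4] at h3
  rw [abs_le] at hn hm h3 ⊢
  constructor <;> linarith [hn.1, hn.2, hm.1, hm.2, h3.1, h3.2]

end Pool.Agent.X19.LPB
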